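import Pool.Agent.H47.SQ.Targets5
import Pool.Agent.H47.SQ.FID

/-!
The savings of backtracking search on random k-CNFs (MP_c62aed_lc): row YLO, the lower bound for a
random order of the variables.
-/

set_option autoImplicit false

namespace Pool.Agent.H40.SQY

open Finset Pool.Agent.H97.RK Pool.Agent.H47.SR
open Pool.Agent.H47.PL (Sat nsol Os)
open Pool.Agent.H47.SQ (success sav guess chain)
open Pool.Agent.H47.SQU (mean)

theorem rn_rn {n k m : ℕ} (π : Equiv.Perm (Fin n)) (F : Fml n k m) :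
    rn π (rn π⁻¹ F) = F := by
  funext c i
  simp [rn]

theorem rn_rn' {n k m : ℕ} (π : Equiv.Perm (Fin n)) (F : Fml n k m) :
    rn π⁻¹ (rn π F) = F := by
  funext c i
  simp [rn]

theorem dist_rn {n k m : ℕ} (π : Equiv.Perm (Fin n)) (F : Fml n k m) :
    Dist (rn π F) ↔ Dist F := by
  constructor
  · intro h c i j hij
    exact h c (show π (F c i).1 = π (F c j).1 from congrArg π hij)
  · intro h c i j hij
    exact h c (π.injective (show π (F c i).1 = π (F c j).1 from hij))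

theorem sat_rn {n k m : ℕ} (π : Equiv.Perm (Fin n)) (F : Fml n k m) (σ : Fin n → Bool) :
    Sat (rn π⁻¹ F) (fun v => σ (π v)) ↔ Sat F σ := by
  unfold Sat rn
  simp

/-- the pairs renamed -/
def tr {n k m : ℕ} (π : Equiv.Perm (Fin n)) :
    Fml n k m × (Fin n → Bool) ≃ Fml n k m × (Fin n → Bool) where
  toFun p := (rn π⁻¹ p.1, fun v => p.2 (π v))
  invFun p := (rn π p.1, fun v => p.2 (π⁻¹ v))
  left_inv p := by
    refine Prod.ext (rn_rn π p.1) ?_
    funext v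
    simp
  right_inv p := by
    refine Prod.ext (rn_rn' π p.1) ?_
    funext v
    simp

theorem card_tr {n k m : ℕ} (π : Equiv.Perm (Fin n)) (Q : Fml n k m → (Fin n → Bool) → Prop)
    (A B : Finset (Fml n k m × (Fin n → Bool)))
    (hA : ∀ p, p ∈ A ↔ Dist p.1 ∧ Sat p.1 p.2 ∧ Q (rn π⁻¹ p.1) (fun v => p.2 (π v)))
    (hB : ∀ p, p ∈ B ↔ Dist p.1 ∧ Sat p.1 p.2 ∧ Q p.1 p.2) : A.card = B.card := by
  refine Finset.card_equiv (tr π) fun p => ?_
  rw [hA, hB]
  have h1 : (tr π p).1 = rn π⁻¹ p.1 := rfl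
  have h2 : (tr π p).2 = fun v => p.2 (π v) := rfl
  rw [h1, h2, dist_rn, sat_rn]

open Classical in
theorem sum_tr {n k m : ℕ} (π : Equiv.Perm (Fin n)) (F : Fml n k m)
    (f : (Fin n → Bool) → ℝ) :
    (∑ σ ∈ univ.filter fun σ : Fin n → Bool => Sat (rn π⁻¹ F) σ, f σ) =
      ∑ σ ∈ univ.filter fun σ : Fin n → Bool => Sat F σ, f (fun v => σ (π v)) := by
  symm
  refine Finset.sum_bij' (fun σ _ => fun v => σ (π v)) (fun σ _ => fun v => σ (π⁻¹ v))
    ?_ ?_ ?_ ?_ ?_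
  · intro σ hσ
    rw [mem_filter] at hσ ⊢
    exact ⟨mem_univ _, (sat_rn π F σ).2 hσ.2⟩
  · intro σ hσ
    rw [mem_filter] at hσ ⊢
    refine ⟨mem_univ _, (sat_rn π F _).1 ?_⟩
    simpa using hσ.2
  · intro σ _
    funext v
    simp
  · intro σ _
    funext v
    simp
  · intro σ _
    rfl

open Classical in
/-- the solutions which are not poor force many variables -/
theorem forced_ge {n k m h u : ℕ} (hhn : h ≤ n) (F : Fml n k m) (σ : Fin n → Bool)
    (hq : ¬ u ≤ (univ.filter fun v : Fin n => n ≤ v.1 + h ∧ ¬ Frc F σ v).card) :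
    (2 : ℝ) ^ (h - u) ≤ (2 : ℝ) ^ (univ.filter fun v => Frc F σ v).card := by
  refine pow_le_pow_right₀ (by norm_num) ?_
  have h9 := card_last hhn
  have h10 : (univ.filter fun v : Fin n => n ≤ v.1 + h).card ≤
      (univ.filter fun v : Fin n => n ≤ v.1 + h ∧ ¬ Frc F σ v).card +
      (univ.filter fun v => Frc F σ v).card := by
    refine le_trans (card_le_card (t := (univ.filter fun v : Fin n => n ≤ v.1 + h ∧
      ¬ Frc F σ v) ∪ (univ.filter fun v => Frc F σ v)) fun v hv => ?_)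
      (card_union_le _ _)
    rw [mem_union, mem_filter, mem_filter]
    by_cases hF : Frc F σ v
    · exact Or.inr ⟨mem_univ _, hF⟩
    · exact Or.inl ⟨mem_univ _, (mem_filter.1 hv).2, hF⟩
  have h11 : (univ.filter fun v : Fin n => n ≤ v.1 + h ∧ ¬ Frc F σ v).card < u :=
    not_le.1 hq
  omega

/-- for one order -/
theorem one_order (hD : T_UPD) (hRN : T_YRN) {n k m h u : ℕ} (F : Fml n k m)
    (poor : Fml n k m → (Fin n → Bool) → Prop)
    (hpoor : ∀ F σ, ¬ poor F σ → (2 : ℝ) ^ (h - u) ≤ (2 : ℝ) ^ (cn fun v => Frc F σ v))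
    (π : Equiv.Perm (Fin n)) :
    ((nsol F : ℝ) - cn fun σ => Sat F σ ∧ poor (rn π⁻¹ F) (fun v => σ (π v))) *
      (2 : ℝ) ^ (h - u) * (1 / 2) ^ n ≤ success F 1 1 (chain (List.ofFn π)) := by
  classical
  have h1 := hRN n k m (rn π⁻¹ F) π 1 1
  rw [rn_rn] at h1
  rw [h1]
  refine le_trans ?_ (hD n k m (rn π⁻¹ F))
  refine mul_le_mul_of_nonneg_right ?_ (by positivity)
  have h2 := sum_tr π F (fun σ => (2 : ℝ) ^ (univ.filter fun v => Frc (rn π⁻¹ F) σ v).card)
  refine le_trans ?_ (le_of_eq h2.symm)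
  set Q : (Fin n → Bool) → Prop := fun σ => poor (rn π⁻¹ F) (fun v => σ (π v)) with hQ
  have h7 : nsol F ≤ (cn fun σ => Sat F σ ∧ Q σ) +
      (univ.filter fun σ => Sat F σ ∧ ¬ Q σ).card := by
    rw [cn_eq]
    unfold nsol
    refine le_trans (card_le_card (t := (univ.filter fun σ => Sat F σ ∧ Q σ) ∪
      (univ.filter fun σ => Sat F σ ∧ ¬ Q σ)) fun σ hσ => ?_) (card_union_le _ _)
    rw [mem_filter] at hσ
    rw [mem_union, mem_filter, mem_filter]
    by_cases hq : Q σ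
    · exact Or.inl ⟨mem_univ _, hσ.2, hq⟩
    · exact Or.inr ⟨mem_univ _, hσ.2, hq⟩
  have h8 : (nsol F : ℝ) - (cn fun σ => Sat F σ ∧ Q σ) ≤
      ((univ.filter fun σ => Sat F σ ∧ ¬ Q σ).card : ℝ) := by
    have : (nsol F : ℝ) ≤ (cn fun σ => Sat F σ ∧ Q σ) +
      (univ.filter fun σ => Sat F σ ∧ ¬ Q σ).card := by exact_mod_cast h7
    linarith
  calc ((nsol F : ℝ) - (cn fun σ => Sat F σ ∧ Q σ)) * (2 : ℝ) ^ (h - u) ≤
      ((univ.filter fun σ => Sat F σ ∧ ¬ Q σ).card : ℝ) * (2 : ℝ) ^ (h - u) :=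
        mul_le_mul_of_nonneg_right h8 (by positivity)
    _ = ∑ _σ ∈ univ.filter (fun σ => Sat F σ ∧ ¬ Q σ), (2 : ℝ) ^ (h - u) := by
        rw [sum_const, nsmul_eq_mul]
    _ ≤ ∑ σ ∈ univ.filter (fun σ => Sat F σ ∧ ¬ Q σ),
        (2 : ℝ) ^ (univ.filter fun v => Frc (rn π⁻¹ F) (fun v => σ (π v)) v).card := by
        refine sum_le_sum fun σ hσ => ?_
        have h9 := hpoor (rn π⁻¹ F) (fun v => σ (π v)) (mem_filter.1 hσ).2.2
        rwa [cn_eq] at h9
    _ ≤ _ := by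
        refine sum_le_sum_of_subset_of_nonneg (fun σ hσ => ?_) (fun _ _ _ => by positivity)
        rw [mem_filter] at hσ ⊢
        exact ⟨mem_univ _, hσ.2.1⟩

theorem pf_YLO (hD : T_UPD) (hB : T_UPB) (hRN : T_YRN) : T_YLO := by
  classical
  intro n k m h u μ X hμ0 hμ1 hk1 hkn huh hhn hX hbig hnum
  have hn1 : (1 : ℝ) ≤ n := by exact_mod_cast (by omega : 1 ≤ n)
  have h1 := hB n k m h u hk1 hkn hhn huh
  have hPE := pairs_eq (n := n) (k := k) (m := m)
  set P := (univ.filter fun p : Fml n k m × (Fin n → Bool) => Dist p.1 ∧ Sat p.1 p.2).card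
    with hP
  set E : ℝ := 2 ^ n * (1 - (1 / 2 : ℝ) ^ k) ^ m with hEdef
  set poor : Fml n k m → (Fin n → Bool) → Prop := fun F σ =>
    u ≤ (univ.filter fun v : Fin n => n ≤ v.1 + h ∧ ¬ Frc F σ v).card with hpoor
  set Bp := (univ.filter fun p : Fml n k m × (Fin n → Bool) => Dist p.1 ∧ Sat p.1 p.2 ∧
      poor p.1 p.2) with hBp
  have h2 : 4 * n * (Bp.card : ℝ) ≤ P := by
    have h1' : (Bp.card : ℝ) ≤ 2 ^ h * (1 - u * (k * ((n - h).descFactorial (k - 1) : ℝ) /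
      ((2 ^ k - 1) * (n.descFactorial k : ℝ)))) ^ m * P := h1
    have hn4 : (0 : ℝ) ≤ 4 * n := by positivity
    calc 4 * n * (Bp.card : ℝ) ≤ 4 * n * (2 ^ h * (1 - u * (k * ((n - h).descFactorial
          (k - 1) : ℝ) / ((2 ^ k - 1) * (n.descFactorial k : ℝ)))) ^ m * P) :=
          mul_le_mul_of_nonneg_left h1' hn4
      _ = (4 * n * (2 ^ h * (1 - u * (k * ((n - h).descFactorial (k - 1) : ℝ) /
          ((2 ^ k - 1) * (n.descFactorial k : ℝ)))) ^ m)) * P := by ring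
      _ ≤ 1 * P := mul_le_mul_of_nonneg_right hnum (Nat.cast_nonneg _)
      _ = P := one_mul _
  -- the number of the poor solutions, in the mean over the orders
  set pp : Equiv.Perm (Fin n) → Fml n k m → ℕ := fun π F =>
    cn fun σ => Sat F σ ∧ poor (rn π⁻¹ F) (fun v => σ (π v)) with hpp
  set pc : Fml n k m → ℝ := fun F => ∑ π, μ π * (pp π F : ℝ) with hpc
  have hpc0 : ∀ F, 0 ≤ pc F := fun F =>
    sum_nonneg fun π _ => mul_nonneg (hμ0 π) (Nat.cast_nonneg _)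
  have hBps : ∀ π, (∑ F ∈ univ.filter (fun F : Fml n k m => Dist F), pp π F) = Bp.card := by
    intro π
    rw [← card_tr π poor (univ.filter fun p : Fml n k m × (Fin n → Bool) => Dist p.1 ∧
      Sat p.1 p.2 ∧ poor (rn π⁻¹ p.1) (fun v => p.2 (π v))) Bp
      (fun p => by rw [mem_filter]; exact ⟨fun h => h.2, fun h => ⟨mem_univ _, h⟩⟩)
      (fun p => by rw [hBp, mem_filter]; exact ⟨fun h => h.2, fun h => ⟨mem_univ _, h⟩⟩)]
    rw [card_pairs2 (fun F σ => poor (rn π⁻¹ F) (fun v => σ (π v))) _ (fun p => by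
      rw [mem_filter]; exact ⟨fun h => h.2, fun h => ⟨mem_univ _, h⟩⟩)]
  have hpcs : (∑ F ∈ univ.filter (fun F : Fml n k m => Dist F), pc F) = Bp.card := by
    rw [hpc, sum_comm]
    have : ∀ π : Equiv.Perm (Fin n), (∑ F ∈ univ.filter (fun F : Fml n k m => Dist F),
        μ π * (pp π F : ℝ)) = μ π * Bp.card := by
      intro π
      rw [← mul_sum, ← Nat.cast_sum, hBps]
    rw [sum_congr rfl fun π _ => this π, ← sum_mul, hμ1, one_mul]
  -- the two sets
  set Ba := (univ.filter fun p : Fml n k m × (Fin n → Bool) => Dist p.1 ∧ Sat p.1 p.2 ∧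
      (nsol p.1 : ℝ) ≤ 2 * pc p.1) with hBa
  set Bb := (univ.filter fun p : Fml n k m × (Fin n → Bool) => Dist p.1 ∧ Sat p.1 p.2 ∧
      2 * n * (nsol p.1 : ℝ) < E) with hBb
  have hBas := card_pairs2 (fun F _ => (nsol F : ℝ) ≤ 2 * pc F) Ba (fun p => by
    rw [hBa, mem_filter]; exact ⟨fun h => h.2, fun h => ⟨mem_univ _, h⟩⟩)
  have hBbs := card_pairs2 (fun F _ => 2 * n * (nsol F : ℝ) < E) Bb (fun p => by
    rw [hBb, mem_filter]; exact ⟨fun h => h.2, fun h => ⟨mem_univ _, h⟩⟩)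
  have h3 : (Ba.card : ℝ) ≤ 2 * Bp.card := by
    rw [hBas, ← hpcs, mul_sum, Nat.cast_sum]
    refine sum_le_sum fun F _ => ?_
    by_cases hF : (nsol F : ℝ) ≤ 2 * pc F
    · have h5 : (cn fun σ => Sat F σ ∧ (nsol F : ℝ) ≤ 2 * pc F) ≤ nsol F := by
        rw [nsol_cn]
        exact cn_mono fun σ hσ => hσ.1
      have h6 : ((cn fun σ => Sat F σ ∧ (nsol F : ℝ) ≤ 2 * pc F : ℕ) : ℝ) ≤ nsol F := by
        exact_mod_cast h5
      exact h6.trans hF
    · rw [cn_zero fun σ h => hF h.2]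
      have := hpc0 F
      simp only [Nat.cast_zero]
      linarith
  have h4 : 2 * n * (Bb.card : ℝ) ≤ P := by
    rw [hBbs, hPE]
    push_cast
    rw [mul_sum, ← nsmul_eq_mul, ← sum_const]
    refine sum_le_sum fun F _ => ?_
    have hE0 : 0 ≤ E := by
      have : (0 : ℝ) ≤ 1 - (1 / 2 : ℝ) ^ k := by
        have := pow_le_one₀ (n := k) (show (0 : ℝ) ≤ 1 / 2 by norm_num) (by norm_num)
        linarith
      positivity
    by_cases hF : 2 * n * (nsol F : ℝ) < E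
    · refine le_trans ?_ hF.le
      have h6 : (cn fun σ => Sat F σ ∧ 2 * n * (nsol F : ℝ) < E) ≤ nsol F := by
        rw [nsol_cn]
        exact cn_mono fun σ hσ => hσ.1
      have h5 : ((cn fun σ => Sat F σ ∧ 2 * n * (nsol F : ℝ) < E : ℕ) : ℝ) ≤
        nsol F := by exact_mod_cast h6
      exact mul_le_mul_of_nonneg_left h5 (by positivity)
    · rw [cn_zero fun σ h => hF h.2]
      simpa using hE0
  have h5 : Nat.card {p : Pool.Agent.H47.SQ.Fml n k m × (Fin n → Bool) //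
      Pool.Agent.H47.SQ.Dist p.1 ∧ Pool.Agent.H47.SQ.Sat p.1 p.2} = P := by
    rw [Nat.card_eq_fintype_card, Fintype.card_subtype]
    rfl
  have h6 : Nat.card {p : Pool.Agent.H47.SQ.Fml n k m × (Fin n → Bool) //
      Pool.Agent.H47.SQ.Dist p.1 ∧ Pool.Agent.H47.SQ.Sat p.1 p.2 ∧
      ¬ X * guess n k m ≤ mean p.1 1 1 μ} ≤ (Ba ∪ Bb).card := by
    rw [Nat.card_eq_fintype_card, Fintype.card_subtype]
    refine card_le_card fun p hp => ?_
    rw [mem_filter] at hp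
    obtain ⟨_, hDi, hS, hs⟩ := hp
    rw [mem_union]
    by_contra hcon
    rw [not_or] at hcon
    obtain ⟨hca, hcb⟩ := hcon
    have hca' : 2 * pc p.1 < nsol p.1 := by
      by_contra h7
      exact hca (mem_filter.2 ⟨mem_univ _, hDi, hS, not_lt.1 h7⟩)
    have hcb' : E ≤ 2 * n * (nsol p.1 : ℝ) := by
      by_contra h7
      exact hcb (mem_filter.2 ⟨mem_univ _, hDi, hS, not_le.1 h7⟩)
    apply hs
    have hone : ∀ π, ((nsol p.1 : ℝ) - pp π p.1) * (2 : ℝ) ^ (h - u) * (1 / 2) ^ n ≤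
        success p.1 1 1 (chain (List.ofFn π)) := fun π =>
      one_order hD hRN p.1 poor (fun F σ hq => by
        rw [cn_eq]
        exact forced_ge hhn F σ hq) π
    have h9 : (nsol p.1 : ℝ) / 2 * (2 : ℝ) ^ (h - u) * (1 / 2) ^ n ≤ mean p.1 1 1 μ := by
      have h7 : ((nsol p.1 : ℝ) - pc p.1) * (2 : ℝ) ^ (h - u) * (1 / 2) ^ n =
          ∑ π, μ π * (((nsol p.1 : ℝ) - pp π p.1) * (2 : ℝ) ^ (h - u) * (1 / 2) ^ n) := by
        have h8 : (nsol p.1 : ℝ) = ∑ π, μ π * (nsol p.1 : ℝ) := by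
          rw [← sum_mul, hμ1, one_mul]
        calc ((nsol p.1 : ℝ) - pc p.1) * (2 : ℝ) ^ (h - u) * (1 / 2) ^ n =
            (∑ π, μ π * (nsol p.1 : ℝ) - ∑ π, μ π * (pp π p.1 : ℝ)) * (2 : ℝ) ^ (h - u) *
              (1 / 2) ^ n := by rw [← h8]
          _ = _ := by
            rw [← sum_sub_distrib, sum_mul, sum_mul]
            exact sum_congr rfl fun π _ => by ring
      calc (nsol p.1 : ℝ) / 2 * (2 : ℝ) ^ (h - u) * (1 / 2) ^ n ≤
          ((nsol p.1 : ℝ) - pc p.1) * (2 : ℝ) ^ (h - u) * (1 / 2) ^ n := by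
            gcongr
            linarith
        _ = _ := h7
        _ ≤ _ := sum_le_sum fun π _ => mul_le_mul_of_nonneg_left (hone π) (hμ0 π)
    have h11 : 2 ^ n * guess n k m ≤ 4 * n * (nsol p.1 : ℝ) := by
      have h10 : (1 : ℝ) ≤ nsol p.1 := by
        have h13 := hpc0 p.1
        have h14 : (0 : ℝ) < nsol p.1 := by linarith
        have h15 : 0 < nsol p.1 := by exact_mod_cast h14
        exact_mod_cast h15
      have h12 : 2 ^ n * guess n k m = 1 + E := by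
        unfold guess
        rw [mul_add, ← mul_pow, hEdef]
        norm_num
      rw [h12]
      nlinarith
    have h13 : (0 : ℝ) < (1 / 2 : ℝ) ^ n := by positivity
    have h14 : (2 : ℝ) ^ n * (1 / 2) ^ n = 1 := by
      rw [← mul_pow]
      norm_num
    calc X * guess n k m =
          X * (2 ^ n * guess n k m) * (1 / 2) ^ n := by
          have h15 : X * (2 ^ n * guess n k m) * (1 / 2) ^ n =
              X * guess n k m * ((2 : ℝ) ^ n * (1 / 2) ^ n) := by ring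
          rw [h15, h14, mul_one]
      _ ≤ X * (4 * n * (nsol p.1 : ℝ)) * (1 / 2) ^ n := by
          gcongr
      _ = (nsol p.1 : ℝ) / 2 * (8 * n * X) * (1 / 2) ^ n := by
          ring
      _ ≤ (nsol p.1 : ℝ) / 2 * (2 : ℝ) ^ (h - u) * (1 / 2) ^ n := by gcongr
      _ ≤ _ := h9
  rw [h5]
  have h7 : (Ba ∪ Bb).card ≤ Ba.card + Bb.card := card_union_le _ _
  have h9 : (Nat.card {p : Pool.Agent.H47.SQ.Fml n k m × (Fin n → Bool) //
      Pool.Agent.H47.SQ.Dist p.1 ∧ Pool.Agent.H47.SQ.Sat p.1 p.2 ∧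
      ¬ X * guess n k m ≤ mean p.1 1 1 μ} : ℝ) ≤ Ba.card + Bb.card := by
    exact_mod_cast h6.trans h7
  have h10 : (0 : ℝ) ≤ n := by linarith
  calc (n : ℝ) * _ ≤ n * (Ba.card + Bb.card) := mul_le_mul_of_nonneg_left h9 h10
    _ ≤ n * (2 * Bp.card + Bb.card) := by gcongr
    _ ≤ P := by nlinarith

end Pool.Agent.H40.SQY
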